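import Pool.Agent.helper76.UFG.Spec

/-!
# Fermat numbers and unique factorisation, second part (MP_37e5fa_nt): row TF1
-/

set_option autoImplicit false

namespace Pool.Agent.UFG

open Finset NumberField nonZeroDivisors Pool.Agent.UF

theorem TF1_dvd (hBAS : BAS_stmt) (hQUK : QUK_stmt) (m : ℕ) (K : Type) [Field K] [NumberField K]
    [IsCyclotomicExtension {2 ^ (m + 1)} ℚ K] (z : 𝓞 K) (hz : IsPrimitiveRoot z (2 ^ (m + 1))) (u : ℕ)
    (h : 2 - z ∣ ((u : ℕ) : 𝓞 K)) : fer m ∣ u := by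
  have hc : Cyc (1 * 2 ^ m) z := by
    rw [one_mul]
    exact hBAS m K z hz
  obtain ⟨h1, -⟩ := hQUK (2 ^ m) 1 2 (𝓞 K) z Nat.one_le_two_pow le_rfl hc
  have h2 : ff 2 z 1 ∣ (((u : ℕ) : ℤ) : 𝓞 K) := by
    unfold ff
    rw [pow_one, Int.cast_natCast]
    exact_mod_cast h
  have h3 := h1 _ h2
  exact_mod_cast h3

theorem TF1 (hBAS : BAS_stmt) (hQUK : QUK_stmt) (hIRR : IRR_stmt) (hPRI : PRI_stmt) (hFCT : FCT_stmt) (hUQF : UQF_stmt) : TF1_stmt := by
  intro m K _ _ _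
  obtain ⟨z, hz⟩ : ∃ z : 𝓞 K, IsPrimitiveRoot z (2 ^ (m + 1)) :=
    ⟨(IsCyclotomicExtension.zeta_spec (2 ^ (m + 1)) ℚ K).toInteger,
      (IsCyclotomicExtension.zeta_spec (2 ^ (m + 1)) ℚ K).toInteger_isPrimitiveRoot⟩
  have hprim : ∀ t : ℕ, Odd t → IsPrimitiveRoot (z ^ t) (2 ^ (m + 1)) := by
    intro t ht
    apply hz.pow_of_coprime t
    exact Nat.Coprime.pow_right _ (Nat.coprime_two_right.2 ht)
  have hprod : (((range (2 ^ (m + 1))).filter (fun t => Odd t)).val.map (fun t => (2 : 𝓞 K) - z ^ t)).prod =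
      ((fer m : ℕ) : 𝓞 K) := by
    have h := hFCT m 2 (𝓞 K) z hz
    unfold fer
    rw [Nat.cast_add, Nat.cast_pow, Nat.cast_one]
    rw [← h]
    rfl
  have hmem : ∀ a ∈ (((range (2 ^ (m + 1))).filter (fun t => Odd t)).val.map (fun t => (2 : 𝓞 K) - z ^ t)),
      ∃ t : ℕ, Odd t ∧ a = 2 - z ^ t := by
    intro a ha
    obtain ⟨t, ht, hta⟩ := Multiset.mem_map.1 ha
    have ht' : t ∈ (range (2 ^ (m + 1))).filter (fun t => Odd t) := ht
    rw [mem_filter] at ht'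
    exact ⟨t, ht'.2, hta.symm⟩
  have hF : 2 ≤ fer m := by
    unfold fer
    have : 1 ≤ 2 ^ 2 ^ m := Nat.one_le_two_pow
    omega
  constructor
  · intro hU
    by_contra hnp
    obtain ⟨u, v, hu, hv, huv⟩ := (Nat.not_prime_iff_exists_mul_eq hF).1 hnp
    have hu0 : u ≠ 0 := by
      rintro rfl
      rw [zero_mul] at huv
      omega
    have hv0 : v ≠ 0 := by
      rintro rfl
      rw [mul_zero] at huv
      omega
    obtain ⟨su, hsu1, hsu2⟩ := WfDvdMonoid.exists_factors ((u : ℕ) : 𝓞 K) (Nat.cast_ne_zero.2 hu0)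
    obtain ⟨sv, hsv1, hsv2⟩ := WfDvdMonoid.exists_factors ((v : ℕ) : 𝓞 K) (Nat.cast_ne_zero.2 hv0)
    have hrel := hU (((range (2 ^ (m + 1))).filter (fun t => Odd t)).val.map (fun t => (2 : 𝓞 K) - z ^ t)) (su + sv)
      (fun a ha => by
        obtain ⟨t, ht, rfl⟩ := hmem a ha
        exact hIRR m K (z ^ t) (hprim t ht))
      (fun a ha => by
        rcases Multiset.mem_add.1 ha with h | h
        · exact hsu1 a h
        · exact hsv1 a h)
      (by rw [hprod])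
      (by
        rw [Multiset.prod_add, ← huv, Nat.cast_mul]
        exact hsu2.mul_mul hsv2)
    have h1 : (2 : 𝓞 K) - z ∈ (((range (2 ^ (m + 1))).filter (fun t => Odd t)).val.map (fun t => (2 : 𝓞 K) - z ^ t)) := by
      rw [Multiset.mem_map]
      refine ⟨1, ?_, by rw [pow_one]⟩
      show 1 ∈ (range (2 ^ (m + 1))).filter (fun t => Odd t)
      rw [mem_filter, mem_range]
      exact ⟨Nat.one_lt_two_pow (by omega), odd_one⟩
    obtain ⟨b, hb, hab⟩ := Multiset.exists_mem_of_rel_of_mem hrel h1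
    rcases Multiset.mem_add.1 hb with hb | hb
    · have h2 : (2 : 𝓞 K) - z ∣ ((u : ℕ) : 𝓞 K) :=
        (hab.dvd.trans (Multiset.dvd_prod hb)).trans hsu2.dvd
      have h3 := TF1_dvd hBAS hQUK m K z hz u h2
      have h4 := Nat.le_of_dvd (Nat.pos_of_ne_zero hu0) h3
      omega
    · have h2 : (2 : 𝓞 K) - z ∣ ((v : ℕ) : 𝓞 K) :=
        (hab.dvd.trans (Multiset.dvd_prod hb)).trans hsv2.dvd
      have h3 := TF1_dvd hBAS hQUK m K z hz v h2
      have h4 := Nat.le_of_dvd (Nat.pos_of_ne_zero hv0) h3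
      omega
  · intro hp
    refine hUQF (𝓞 K) _ (((range (2 ^ (m + 1))).filter (fun t => Odd t)).val.map (fun t => (2 : 𝓞 K) - z ^ t)) ?_ (by rw [hprod])
    intro a ha
    obtain ⟨t, ht, rfl⟩ := hmem a ha
    exact hPRI m K (z ^ t) (hprim t ht) hp

end Pool.Agent.UFG
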